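import Pool.Agent.Lib.MP_65f174_lc.AKE.Final

/-!
# Fragment-wise Ax–Kochen/Ershov transfer in residue characteristic zero

For every standard fragment `Φ` (`∃`, `∀∃`, `∃∀∃`, ...), the `Φ`-theories of the residue field and of
the value group of a henselian valued field `(K, v)` control its `Φ`-theory, in residue
characteristic zero: `Th_Φ(Kv) ⊆ Th_Φ(Lw)` and `Th_Φ(vK) ⊆ Th_Φ(wL)` imply
`Th_Φ(K, v) ⊆ Th_Φ(L, w)`.

The proof: a formula with `n` alternating blocks of quantifiers is transferred by a back-and-forth
between ultrapowers of `K` and `L`, one level for each block. The data of level `n` are countable
partial isomorphisms which preserve the formulas with `n` blocks (the first one existential) of the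
residue fields and of the value groups, and whose domain has a pure value group. They extend at the
same level (saturation of the residue field and value group sorts, lifting to leading terms, and an
embedding lemma for relatively algebraically closed subfields, proved with a collision lemma for
roots of derivatives), and their inverses are data of level `n - 1`.
-/

set_option autoImplicit false

namespace Pool.Agent.Results.MP_65f174_lc.AllFragmentsTransfer

universe u

open Pool.Agent.Lib.MP_65f174_lc.AKE

/-- The transfer principle of Q2 holds for every standard fragment: here `K` and `L` are henselian
valued fields, `L` has residue characteristic `0` (and then so has `K`, because of `hres`), and the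
`n`-th standard fragment has `n` alternating blocks of quantifiers, the last one existential. -/
theorem result (n : ℕ) (hn : 1 ≤ n) (K L : ValuedField.{u})
    (hK : HenselianLocalRing K.ring) (hL : HenselianLocalRing L.ring) (hL0 : CharZero L.Res)
    (hres : ringTh n K.Res ⊆ ringTh n L.Res) (hval : oagTh n K.G ![] ⊆ oagTh n L.G ![]) :
    valTh n K ![] ⊆ valTh n L ![] :=
  transfer_all n hn K L hK hL hL0 hres hval

end Pool.Agent.Results.MP_65f174_lc.AllFragmentsTransfer
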