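import Pool.Agent.Lib.MP_65f174_lc.Sentence
import Pool.Agent.Lib.MP_65f174_lc.Fields

set_option autoImplicit false

namespace Pool.Agent.Results.MP_65f174_lc.FragmentTransferFails

open Pool.Agent.Lib.MP_65f174_lc

/-- The transfer principle of Q1 fails for every standard fragment with at least three blocks.
First part: a single pair of henselian valued fields with isomorphic residue fields refutes it for
all these fragments. Second part: its conclusion fails for these fragments whenever the second
value group is a `ℤ`-group and the first one is not. -/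
theorem result :
    (∃ (K L : ValuedField) (πK : K.K) (πL : L.K),
      K.IsHenselian ∧ K.IsNontrivial ∧ K.IsEquicharZero ∧ K.IsUniformizer πK ∧
      L.IsHenselian ∧ L.IsNontrivial ∧ L.IsEquicharZero ∧ L.IsUniformizer πL ∧
      Nonempty (K.G ≃+o ℤ ×ₗ ℤ) ∧ Nonempty (L.G ≃+o ℤ) ∧ Nonempty (K.Res ≃+* L.Res) ∧
      ∀ n : ℕ, 3 ≤ n →
        ringTheory n K.Res ⊆ ringTheory n L.Res ∧ ¬ valTheory n K πK ⊆ valTheory n L πL) ∧
    (∀ (K L : ValuedField) (πK : K.K) (πL : L.K), K.IsUniformizer πK → L.IsUniformizer πL →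
      ¬ IsZGroup K.G → IsZGroup L.G →
      ∀ n : ℕ, 3 ≤ n → ¬ valTheory n K πK ⊆ valTheory n L πL) := by
  refine ⟨⟨fieldK, fieldL, unifK, unifL, henselianK, ?_, equicharK, isUniformizerK,
    henselianL, ?_, equicharL, isUniformizerL, ⟨OrderAddMonoidIso.refl (ℤ ×ₗ ℤ)⟩,
    ⟨OrderAddMonoidIso.refl ℤ⟩, residue_equiv, fun n hn => ⟨?_, ?_⟩⟩,
    fun K L πK πL hK hL hKG hLG n hn => not_transfer hK hL hKG hLG n hn⟩
  · change Nontrivial (ℤ ×ₗ ℤ)
    infer_instance
  · change Nontrivial ℤ
    infer_instance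
  · obtain ⟨f⟩ := residue_equiv
    exact (ringTheory_eq f n).subset
  · exact not_transfer isUniformizerK isUniformizerL not_isZGroup_lex isZGroup_int n hn

end Pool.Agent.Results.MP_65f174_lc.FragmentTransferFails
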