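import Pool.Agent.Lib.MP_65f174_lc.AKE.Final

/-!
# Fragment-wise transfer with a uniformizer as a constant

The transfer principle of Q1 holds for every standard fragment as soon as both value groups are
`ℤ`-groups, and more generally as soon as the fragments of the theories of the value groups with a
constant for the value of the uniformizer are included.
-/

set_option autoImplicit false

namespace Pool.Agent.Results.MP_65f174_lc.UniformizerTransfer

universe u

open Pool.Agent.Lib.MP_65f174_lc.AKE

/-- For every standard fragment `Φ` and henselian valued fields `K`, `L` with uniformizers, `L` of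
residue characteristic `0`, `Th_Φ(Kv) ⊆ Th_Φ(Lw)` implies `Th_Φ(K, v, π_K) ⊆ Th_Φ(L, w, π_L)` in each
of two cases: when `Th_Φ(vK, v π_K) ⊆ Th_Φ(wL, w π_L)`, and when both value groups are
`ℤ`-groups. -/
theorem result (n : ℕ) (hn : 1 ≤ n) (K L : ValuedField.{u})
    (hK : HenselianLocalRing K.ring) (hL : HenselianLocalRing L.ring) (hL0 : CharZero L.Res)
    (πK : K.K) (πL : L.K) (hπK : K.IsUniformizer πK) (hπL : L.IsUniformizer πL)
    (hres : ringTh n K.Res ⊆ ringTh n L.Res) :
    (∀ (gK : K.G) (gL : L.G), K.v πK = gK → L.v πL = gL →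
      oagTh n K.G ![gK] ⊆ oagTh n L.G ![gL] → valTh n K ![πK] ⊆ valTh n L ![πL]) ∧
    (IsZGroup K.G → IsZGroup L.G → valTh n K ![πK] ⊆ valTh n L ![πL]) :=
  ⟨fun gK gL hgK hgL hval =>
    transfer_uniformizer n hn K L hK hL hL0 πK πL hπK hπL hres gK gL hgK hgL hval,
    fun hKZ hLZ => transfer_zgroup n hn K L hK hL hL0 πK πL hπK hπL hres hKZ hLZ⟩

end Pool.Agent.Results.MP_65f174_lc.UniformizerTransfer
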